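import Mathlib
import Pool.Agent.R893.LA.Abs

/-!
# MP_1e3651_al, question 1: yes

If `E_i = e_i/λ + (Taylor series)`, `i = 1, 2, 3`, in `so₃((λ))` satisfy the cubic commutator
relations (R) for some constant matrices `A, B, C, D`, then the Lie subalgebra they generate is
factoring.

(The paper's indices `1, 2, 3` are `0, 1, 2` here.)
-/

namespace Pool.Agent.Results.MP_1e3651_al.CubicRelations

open Pool.Agent.R893.LA

-- the commutator bracket of an associative algebra
attribute [local instance 100] LieRing.ofAssociativeRing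

/-- the coefficientwise `ℂ`-algebra structure on Laurent series (this is Mathlib's instance for Hahn
series; Mathlib also has a propositionally equal one, through power series, which would otherwise be
found first) -/
noncomputable local instance : Algebra ℂ (LaurentSeries ℂ) := HahnSeries.instAlgebra

/-- the `3 × 3` matrices over the formal Laurent series -/
abbrev Mat := Matrix (Fin 3) (Fin 3) (LaurentSeries ℂ)

/-- the basis `e₁ = E₁₂ - E₂₁`, `e₂ = E₁₃ - E₃₁`, `e₃ = E₂₃ - E₃₂` of `so₃` -/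
def e : Fin 3 → Matrix (Fin 3) (Fin 3) ℂ :=
  ![Matrix.single 0 1 1 - Matrix.single 1 0 1, Matrix.single 0 2 1 - Matrix.single 2 0 1,
    Matrix.single 1 2 1 - Matrix.single 2 1 1]

/-- `e_i / λ` -/
noncomputable def lead (i : Fin 3) : Mat := (e i).map (HahnSeries.single (-1 : ℤ))

/-- the loop algebra `so₃((λ))`: skew-symmetric matrices of Laurent series -/
def loop : Submodule ℂ Mat where
  carrier := {M | M.transpose = -M}
  add_mem' := by
    intro a b ha hb
    simp only [Set.mem_ofPred_eq] at *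
    rw [Matrix.transpose_add, ha, hb, neg_add]
  zero_mem' := by simp
  smul_mem' := by
    intro c a ha
    simp only [Set.mem_ofPred_eq] at *
    rw [Matrix.transpose_smul, ha, smul_neg]

/-- the Taylor series `so₃[[λ]]`: skew-symmetric matrices of Laurent series whose coefficients at
negative powers of `λ` vanish -/
def taylor : Submodule ℂ Mat where
  carrier := {M | M.transpose = -M ∧ ∀ n : ℤ, n < 0 → ∀ i j, (M i j).coeff n = 0}
  add_mem' := by
    rintro a b ⟨ha, ha'⟩ ⟨hb, hb'⟩
    refine ⟨loop.add_mem ha hb, fun n hn i j => ?_⟩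
    simp [ha' n hn i j, hb' n hn i j]
  zero_mem' := ⟨loop.zero_mem, fun n hn i j => by simp⟩
  smul_mem' := by
    rintro c a ⟨ha, ha'⟩
    refine ⟨loop.smul_mem c ha, fun n hn i j => ?_⟩
    simp [ha' n hn i j]

/-- a Lie subalgebra `U` is factoring: `so₃((λ)) = so₃[[λ]] ⊕ U` -/
def IsFactoring (U : LieSubalgebra ℂ Mat) : Prop :=
  Disjoint taylor U.toSubmodule ∧ taylor ⊔ U.toSubmodule = loop

/-- the product of a constant matrix with a column of three elements of the loop algebra -/
noncomputable def mulCol (A : Matrix (Fin 3) (Fin 3) ℂ) (v : Fin 3 → Mat) : Fin 3 → Mat :=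
  fun i => ∑ j, A i j • v j

/-- the column `K = ([E₃, E₁], [E₁, E₂], [E₂, E₃])ᵀ` -/
noncomputable def colK (E : Fin 3 → Mat) : Fin 3 → Mat := ![⁅E 2, E 0⁆, ⁅E 0, E 1⁆, ⁅E 1, E 2⁆]

/-- the column `F = (E₂, E₃, E₁)ᵀ` -/
def colF (E : Fin 3 → Mat) : Fin 3 → Mat := ![E 1, E 2, E 0]

/-- the relations (R) -/
def RelR (E : Fin 3 → Mat) : Prop :=
  ∃ A B C D : Matrix (Fin 3) (Fin 3) ℂ,
    ![⁅E 0, ⁅E 1, E 2⁆⁆, ⁅E 2, ⁅E 0, E 1⁆⁆, ⁅E 1, ⁅E 2, E 0⁆⁆] =
      mulCol A (colK E) + mulCol B (colF E) ∧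
    ![⁅E 2, ⁅E 1, E 2⁆⁆ + ⁅E 0, ⁅E 0, E 1⁆⁆,
      ⁅E 0, ⁅E 2, E 0⁆⁆ + ⁅E 1, ⁅E 1, E 2⁆⁆,
      ⁅E 1, ⁅E 0, E 1⁆⁆ + ⁅E 2, ⁅E 2, E 0⁆⁆] =
      mulCol C (colK E) + mulCol D (colF E)

/-! ### Poles -/

/-- skew matrices with a pole of order at most `n` -/
def P (n : ℕ) : Submodule ℂ Mat where
  carrier := {M | M.transpose = -M ∧ ∀ k : ℤ, k < -(n : ℤ) → ∀ i j, (M i j).coeff k = 0}
  add_mem' := by
    rintro a b ⟨ha, ha'⟩ ⟨hb, hb'⟩
    refine ⟨loop.add_mem ha hb, fun n hn i j => ?_⟩
    simp [ha' n hn i j, hb' n hn i j]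
  zero_mem' := ⟨loop.zero_mem, fun n hn i j => by simp⟩
  smul_mem' := by
    rintro c a ⟨ha, ha'⟩
    refine ⟨loop.smul_mem c ha, fun n hn i j => ?_⟩
    simp [ha' n hn i j]

/-- the coefficient matrix at `λ ^ k` -/
def cf (k : ℤ) (M : Mat) : Matrix (Fin 3) (Fin 3) ℂ := fun i j => (M i j).coeff k

lemma cf_add (k : ℤ) (M N : Mat) : cf k (M + N) = cf k M + cf k N := by
  ext i j; simp [cf]

lemma cf_sub (k : ℤ) (M N : Mat) : cf k (M - N) = cf k M - cf k N := by
  ext i j; simp [cf]

lemma cf_neg (k : ℤ) (M : Mat) : cf k (-M) = - cf k M := by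
  ext i j; simp [cf]

lemma cf_zero (k : ℤ) : cf k (0 : Mat) = 0 := by
  ext i j; simp [cf]

lemma cf_smul (k : ℤ) (c : ℂ) (M : Mat) : cf k (c • M) = c • cf k M := by
  ext i j; simp [cf]

lemma cf_sum (k : ℤ) {ι : Type*} (s : Finset ι) (f : ι → Mat) :
    cf k (∑ i ∈ s, f i) = ∑ i ∈ s, cf k (f i) := by
  classical
  induction s using Finset.induction_on with
  | empty => simp [cf_zero]
  | insert a s ha ih => rw [Finset.sum_insert ha, Finset.sum_insert ha, cf_add, ih]

lemma P_mono {m n : ℕ} (h : m ≤ n) : P m ≤ P n := by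
  rintro M ⟨h1, h2⟩
  exact ⟨h1, fun k hk i j => h2 k (by omega) i j⟩

lemma P_zero : P 0 = taylor := by
  ext M
  constructor
  · rintro ⟨h1, h2⟩
    exact ⟨h1, fun k hk i j => h2 k (by simpa using hk) i j⟩
  · rintro ⟨h1, h2⟩
    exact ⟨h1, fun k hk i j => h2 k (by simpa using hk) i j⟩

lemma P_le (n : ℕ) : P n ≤ loop := fun _ h => h.1

lemma coeff_mul_zero {p q : ℤ} {f g : LaurentSeries ℂ} (hf : ∀ k < p, f.coeff k = 0)
    (hg : ∀ k < q, g.coeff k = 0) (k : ℤ) (hk : k < p + q) : (f * g).coeff k = 0 := by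
  rw [HahnSeries.coeff_mul]
  apply Finset.sum_eq_zero
  rintro ⟨a, b⟩ hab
  rw [Finset.mem_antidiagonal] at hab
  obtain ⟨h1, h2, h3⟩ := hab
  rcases (show a < p ∨ b < q by simp only at h3; omega) with h | h
  · exact absurd (hf a h) h1
  · exact absurd (hg b h) h2

lemma coeff_mul_bot {p q : ℤ} {f g : LaurentSeries ℂ} (hf : ∀ k < p, f.coeff k = 0)
    (hg : ∀ k < q, g.coeff k = 0) : (f * g).coeff (p + q) = f.coeff p * g.coeff q := by
  rw [HahnSeries.coeff_mul]
  have key : ∀ ab ∈ Finset.antidiagonal f.isPWO_support g.isPWO_support (p + q),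
      ab = (p, q) := by
    rintro ⟨a, b⟩ hab
    rw [Finset.mem_antidiagonal] at hab
    obtain ⟨h1, h2, h3⟩ := hab
    simp only at h1 h2 h3
    have ha : p ≤ a := by
      by_contra h; exact absurd (hf a (by omega)) h1
    have hb : q ≤ b := by
      by_contra h; exact absurd (hg b (by omega)) h2
    ext <;> simp only <;> omega
  by_cases hmem : (p, q) ∈ Finset.antidiagonal f.isPWO_support g.isPWO_support (p + q)
  · rw [Finset.sum_eq_single (p, q)]
    · intro b hb hne; exact absurd (key b hb) hne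
    · intro h; exact absurd hmem h
  · rw [Finset.sum_eq_zero]
    · rw [Finset.mem_antidiagonal] at hmem
      simp only [and_true, not_and_or] at hmem
      rcases hmem with h | h
      · have : f.coeff p = 0 := by simpa using h
        rw [this, zero_mul]
      · have : g.coeff q = 0 := by simpa using h
        rw [this, mul_zero]
    · intro b hb
      have := key b hb
      rw [this] at hb
      exact absurd hb hmem

lemma mul_pole {p q : ℕ} {M N : Mat} (hM : M ∈ P p) (hN : N ∈ P q) (k : ℤ)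
    (hk : k < -((p + q : ℕ) : ℤ)) (i j : Fin 3) : ((M * N) i j).coeff k = 0 := by
  rw [Matrix.mul_apply]
  rw [HahnSeries.coeff_sum]
  apply Finset.sum_eq_zero
  intro l _
  apply coeff_mul_zero (p := -(p : ℤ)) (q := -(q : ℤ))
  · intro k hk; exact hM.2 k hk i l
  · intro k hk; exact hN.2 k hk l j
  · push_cast at hk; omega

lemma cf_mul {p q : ℕ} {M N : Mat} (hM : M ∈ P p) (hN : N ∈ P q) :
    cf (-((p + q : ℕ) : ℤ)) (M * N) = cf (-(p : ℤ)) M * cf (-(q : ℤ)) N := by
  ext i j
  rw [cf, Matrix.mul_apply, Matrix.mul_apply, HahnSeries.coeff_sum]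
  apply Finset.sum_congr rfl
  intro l _
  have : -((p + q : ℕ) : ℤ) = -(p : ℤ) + -(q : ℤ) := by push_cast; ring
  rw [this]
  apply coeff_mul_bot
  · intro k hk; exact hM.2 k hk i l
  · intro k hk; exact hN.2 k hk l j

lemma bracket_P {p q : ℕ} {M N : Mat} (hM : M ∈ P p) (hN : N ∈ P q) : ⁅M, N⁆ ∈ P (p + q) := by
  refine ⟨?_, ?_⟩
  · rw [Ring.lie_def, Matrix.transpose_sub, Matrix.transpose_mul, Matrix.transpose_mul, hM.1, hN.1]
    simp
  · intro k hk i j
    rw [Ring.lie_def]
    have h1 := mul_pole hM hN k hk i j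
    have h2 := mul_pole hN hM k (by rwa [add_comm q p]) i j
    rw [Matrix.sub_apply, HahnSeries.coeff_sub, h1, h2, sub_zero]

lemma cf_bracket {p q : ℕ} {M N : Mat} (hM : M ∈ P p) (hN : N ∈ P q) :
    cf (-((p + q : ℕ) : ℤ)) ⁅M, N⁆ = ⁅cf (-(p : ℤ)) M, cf (-(q : ℤ)) N⁆ := by
  rw [Ring.lie_def, Ring.lie_def, cf_sub, cf_mul hM hN]
  congr 1
  rw [add_comm p q]
  exact cf_mul hN hM

lemma e_bracket (k : Fin 3) : ⁅e (k + 1), e (k + 2)⁆ = - e k := by
  rw [Ring.lie_def]
  fin_cases k <;> ext i j <;> fin_cases i <;> fin_cases j <;>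
    simp [e, Matrix.mul_apply, Fin.sum_univ_three, Matrix.single]

lemma e_skew (k : Fin 3) : (e k).transpose = - e k := by
  fin_cases k <;> ext i j <;> fin_cases i <;> fin_cases j <;>
    simp [e, Matrix.single]

lemma lead_mem (k : Fin 3) : lead k ∈ P 1 := by
  refine ⟨?_, ?_⟩
  · ext1 i j
    have := congrFun (congrFun (e_skew k) i) j
    rw [Matrix.transpose_apply, Matrix.neg_apply] at this
    rw [Matrix.transpose_apply, Matrix.neg_apply, lead, Matrix.map_apply, Matrix.map_apply, this,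
      HahnSeries.single_neg]
  · intro n hn i j
    rw [lead, Matrix.map_apply, HahnSeries.coeff_single_of_ne]
    push_cast at hn
    omega

lemma cf_lead (k : Fin 3) : cf (-1) (lead k) = e k := by
  ext i j
  simp [cf, lead]

variable {E : Fin 3 → Mat}

lemma E_mem (hE : ∀ i, E i - lead i ∈ taylor) (i : Fin 3) : E i ∈ P 1 := by
  have h := hE i
  rw [← P_zero] at h
  have := (P 1).add_mem (P_mono (Nat.zero_le 1) h) (lead_mem i)
  simpa using this

lemma cf_E (hE : ∀ i, E i - lead i ∈ taylor) (i : Fin 3) : cf (-1) (E i) = e i := by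
  have h : cf (-1) (E i - lead i) = 0 := by
    ext a b; exact (hE i).2 (-1) (by norm_num) a b
  rw [cf_sub, cf_lead, sub_eq_zero] at h
  exact h

lemma F_le_P (hE : ∀ i, E i - lead i ∈ taylor) (n : ℕ) {y : Mat} (hy : y ∈ F ℂ E n) :
    y ∈ P n := by
  induction n generalizing y with
  | zero =>
    have : y = 0 := by simpa [F] using hy
    rw [this]; exact Submodule.zero_mem _
  | succ n ih =>
    refine F_induction E (P := fun y => y ∈ P (n + 1)) ?_ ?_ ?_ ?_ ?_ ?_ hy
    · exact Submodule.zero_mem _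
    · intro a b ha hb; exact Submodule.add_mem _ ha hb
    · intro c a ha; exact Submodule.smul_mem _ c ha
    · intro i; exact P_mono (by omega) (E_mem hE i)
    · intro y hy; exact P_mono (by omega) (ih hy)
    · intro i y hy
      have := bracket_P (E_mem hE i) (ih hy)
      rwa [add_comm 1 n] at this

/-- the leading coefficient of the main commutators -/
lemma cf_Y (hE : ∀ i, E i - lead i ∈ taylor) (n : ℕ) (k : Fin 3) :
    cf (-((n + 1 : ℕ) : ℤ)) (Y E (n + 1) k) = (-1 : ℂ) ^ n • e k := by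
  induction n generalizing k with
  | zero => simpa [Y_one] using cf_E hE k
  | succ n ih =>
    rw [Y_succ E (n + 1) (by omega)]
    have h := cf_bracket (E_mem hE (k + 1)) (F_le_P hE (n + 1) (Y_mem (K := ℂ) E (n + 1) (k + 2)))
    rw [add_comm 1 (n + 1)] at h
    rw [h, ih]
    push_cast
    rw [cf_E hE, lie_smul, e_bracket, pow_succ]
    module

/-- the `e k` are independent -/
lemma e_indep (a : Fin 3 → ℂ) (h : ∑ k, a k • e k = 0) : a = 0 := by
  have h1 := congrFun (congrFun h 0) 1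
  have h2 := congrFun (congrFun h 0) 2
  have h3 := congrFun (congrFun h 1) 2
  simp [Fin.sum_univ_three, e, Matrix.single] at h1 h2 h3
  ext k
  fin_cases k
  · simpa using h1
  · simpa using h2
  · simpa using h3

/-- every skew matrix is a combination of the `e k` -/
lemma e_span (M : Matrix (Fin 3) (Fin 3) ℂ) (h : M.transpose = -M) :
    M = ∑ k, (![M 0 1, M 0 2, M 1 2] k : ℂ) • e k := by
  have hs : ∀ i j, M j i = - M i j := fun i j => congrFun (congrFun h i) j
  have hd : ∀ i, M i i = 0 := by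
    intro i
    have := hs i i
    linear_combination (1 / 2 : ℂ) * this
  ext i j
  rw [Fin.sum_univ_three]
  fin_cases i <;> fin_cases j <;> simp [e, Matrix.single, hd, hs 0 1, hs 0 2, hs 1 2]

lemma rel_of (h : RelR E) : Pool.Agent.R893.LA.Rel ℂ E := by
  obtain ⟨A, B, C, D, h1, h2⟩ := h
  have hk : ∀ i, colK E i ∈ F ℂ E 2 := by
    intro i
    fin_cases i
    · exact ad_mem E 2 (x_mem E 0 1 le_rfl)
    · exact ad_mem E 0 (x_mem E 1 1 le_rfl)
    · exact ad_mem E 1 (x_mem E 2 1 le_rfl)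
  have hf : ∀ i, colF E i ∈ F ℂ E 2 := by
    intro i
    fin_cases i
    · exact x_mem E 1 2 (by norm_num)
    · exact x_mem E 2 2 (by norm_num)
    · exact x_mem E 0 2 (by norm_num)
  have hm : ∀ (A B : Matrix (Fin 3) (Fin 3) ℂ) i,
      (mulCol A (colK E) + mulCol B (colF E)) i ∈ F ℂ E 2 := by
    intro A B i
    rw [Pi.add_apply, mulCol, mulCol]
    exact Submodule.add_mem _ (Submodule.sum_mem _ fun j _ => Submodule.smul_mem _ _ (hk j))
      (Submodule.sum_mem _ fun j _ => Submodule.smul_mem _ _ (hf j))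
  refine ⟨?_, ?_⟩
  · intro i
    fin_cases i
    · have := hm A B 0
      rw [← h1] at this
      exact this
    · have := hm A B 2
      rw [← h1] at this
      exact this
    · have := hm A B 1
      rw [← h1] at this
      exact this
  · intro i
    fin_cases i
    · have := hm C D 2
      rw [← h2] at this
      exact this
    · have := hm C D 0
      rw [← h2] at this
      exact this
    · have := hm C D 1
      rw [← h2] at this
      exact this

/-- `U ∩ so₃[[λ]] = 0` -/
lemma inter_zero (hE : ∀ i, E i - lead i ∈ taylor) (h : RelR E) (n : ℕ) {y : Mat}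
    (hy : y ∈ F ℂ E n) (ht : y ∈ taylor) : y = 0 := by
  induction n generalizing y with
  | zero => simpa [F] using hy
  | succ n ih =>
    obtain ⟨a, ha⟩ := F_step E (rel_of h) n hy
    have h1 : cf (-((n + 1 : ℕ) : ℤ)) (y - ∑ k, a k • Y E (n + 1) k) = 0 := by
      have := F_le_P hE n ha
      ext i j
      exact this.2 _ (by push_cast; omega) i j
    have h2 : cf (-((n + 1 : ℕ) : ℤ)) y = 0 := by
      ext i j
      exact ht.2 _ (by push_cast; omega) i j
    rw [cf_sub, h2, zero_sub, neg_eq_zero, cf_sum] at h1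
    have h3 : ∑ k, ((-1 : ℂ) ^ n * a k) • e k = 0 := by
      rw [← h1]
      refine Finset.sum_congr rfl fun k _ => ?_
      rw [cf_smul, cf_Y hE, smul_smul, mul_comm]
    have h4 := e_indep _ h3
    have h5 : a = 0 := by
      ext k
      have := congrFun h4 k
      simpa using this
    rw [h5] at ha
    simp only [Pi.zero_apply, zero_smul, Finset.sum_const_zero, sub_zero] at ha
    exact ih ha ht

/-- every element with a pole of order at most `n` is Taylor plus an element of `U` -/
lemma decomp (hE : ∀ i, E i - lead i ∈ taylor) (n : ℕ) {y : Mat} (hy : y ∈ P n) :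
    ∃ u ∈ F ℂ E n, y - u ∈ taylor := by
  induction n generalizing y with
  | zero =>
    refine ⟨0, Submodule.zero_mem _, ?_⟩
    rw [sub_zero, ← P_zero]
    exact hy
  | succ n ih =>
    have hs : (cf (-((n + 1 : ℕ) : ℤ)) y).transpose = - cf (-((n + 1 : ℕ) : ℤ)) y := by
      ext i j
      have := congrFun (congrFun hy.1 i) j
      rw [Matrix.transpose_apply, Matrix.neg_apply] at this
      rw [Matrix.transpose_apply, Matrix.neg_apply, cf, cf, this, HahnSeries.coeff_neg]
    obtain ⟨a, ha⟩ : ∃ a : Fin 3 → ℂ, cf (-((n + 1 : ℕ) : ℤ)) y = ∑ k, a k • e k :=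
      ⟨_, e_span _ hs⟩
    let v : Mat := ∑ k, ((-1 : ℂ) ^ n * a k) • Y E (n + 1) k
    have hv : v ∈ F ℂ E (n + 1) :=
      Submodule.sum_mem _ fun k _ => Submodule.smul_mem _ _ (Y_mem E (n + 1) k)
    have hyv : y - v ∈ P n := by
      have h1 : y - v ∈ P (n + 1) := (P (n + 1)).sub_mem hy (F_le_P hE _ hv)
      refine ⟨h1.1, fun k hk i j => ?_⟩
      rcases (show k < -((n + 1 : ℕ) : ℤ) ∨ k = -((n + 1 : ℕ) : ℤ) by push_cast; omega) with hk' | hk'
      · exact h1.2 k hk' i j
      · have : cf (-((n + 1 : ℕ) : ℤ)) (y - v) = 0 := by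
          rw [cf_sub, ha, cf_sum, sub_eq_zero]
          refine Finset.sum_congr rfl fun k _ => ?_
          rw [cf_smul, cf_Y hE, smul_smul]
          congr 1
          have : ((-1 : ℂ) ^ n) * (-1) ^ n = 1 := by rw [← mul_pow]; simp
          linear_combination (- a k) * this
        rw [hk']
        exact congrFun (congrFun this i) j
    obtain ⟨u, hu, hu'⟩ := ih hyv
    refine ⟨v + u, Submodule.add_mem _ hv (F_succ E n hu), ?_⟩
    rwa [← sub_sub]

/-- every element of the loop algebra has a pole of finite order -/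
lemma exists_pole {y : Mat} (hy : y ∈ loop) : ∃ n, y ∈ P n := by
  have h1 : ∀ f : LaurentSeries ℂ, ∃ n : ℕ, ∀ k : ℤ, k < -(n : ℤ) → f.coeff k = 0 := by
    intro f
    refine ⟨(-f.order).toNat, fun k hk => ?_⟩
    apply HahnSeries.coeff_eq_zero_of_lt_order
    have := Int.self_le_toNat (-f.order)
    omega
  choose N hN using h1
  refine ⟨∑ i, ∑ j, N (y i j), hy, fun k hk i j => hN (y i j) k (lt_of_lt_of_le hk ?_)⟩
  have h2 : N (y i j) ≤ ∑ j, N (y i j) :=
    Finset.single_le_sum (f := fun j => N (y i j)) (fun _ _ => Nat.zero_le _) (Finset.mem_univ j)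
  have h3 : ∑ j, N (y i j) ≤ ∑ i, ∑ j, N (y i j) :=
    Finset.single_le_sum (f := fun i => ∑ j, N (y i j)) (fun _ _ => Nat.zero_le _)
      (Finset.mem_univ i)
  omega

/-- **MP_1e3651_al, Q1 (yes).** -/
theorem result (E : Fin 3 → Mat) (hE : ∀ i, E i - lead i ∈ taylor) (hR : RelR E) :
    IsFactoring (LieSubalgebra.lieSpan ℂ Mat (Set.range E)) := by
  refine ⟨?_, ?_⟩
  · rw [Submodule.disjoint_def]
    intro y hy hy'
    rw [LieSubalgebra.mem_toSubmodule, lieSpan_iff] at hy'
    obtain ⟨n, hn⟩ := hy'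
    exact inter_zero hE hR n hn hy
  · apply le_antisymm
    · refine sup_le (fun y hy => hy.1) (fun y hy => ?_)
      rw [LieSubalgebra.mem_toSubmodule, lieSpan_iff] at hy
      obtain ⟨n, hn⟩ := hy
      exact (F_le_P hE n hn).1
    · intro y hy
      obtain ⟨n, hn⟩ := exists_pole hy
      obtain ⟨u, hu, hu'⟩ := decomp hE n hn
      rw [Submodule.mem_sup]
      refine ⟨y - u, hu', u, ?_, by abel⟩
      rw [LieSubalgebra.mem_toSubmodule, lieSpan_iff]
      exact ⟨n, hu⟩

end Pool.Agent.Results.MP_1e3651_al.CubicRelations
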